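import Mathlib

set_option autoImplicit false

namespace Pool.Agent.H.MP_dbf4ef_co

open Finset Classical

noncomputable def red {V : Type} (G : SimpleGraph V) (s : Finset V) : ℤ :=
  ∑ c ∈ s.powerset, if G.IsClique c then (-1) ^ c.card else 0

theorem red_empty {V : Type} (G : SimpleGraph V) : red G ∅ = 1 := by simp [red]

theorem red_insert {V : Type} [DecidableEq V] (G : SimpleGraph V) (s : Finset V) (x : V)
    [DecidablePred (G.Adj x)] (hx : x ∉ s) :
    red G (insert x s) = red G s - red G (s.filter (G.Adj x)) := by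
  rw [red, sum_powerset_insert hx, sub_eq_add_neg]
  congr 1
  rw [red, ← sum_neg_distrib]
  symm
  refine sum_subset_zero_on_sdiff (powerset_mono.2 (filter_subset _ _)) (fun c hc => ?_)
    (fun c hc => ?_)
  · rw [mem_sdiff, mem_powerset, mem_powerset] at hc
    refine if_neg (fun h => hc.2 (fun y hy => mem_filter.2 ⟨hc.1 hy, ?_⟩))
    exact h (by simp) (by simp [hy]) (fun e => hx (e ▸ hc.1 hy))
  · rw [mem_powerset] at hc
    have h1 : x ∉ c := fun h => hx (mem_filter.1 (hc h)).1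
    have h2 : G.IsClique (insert x c : Finset V) ↔ G.IsClique c := by
      rw [coe_insert, SimpleGraph.isClique_insert]
      exact and_iff_left (fun y hy _ => (mem_filter.1 (hc hy)).2)
    simp only [card_insert_of_notMem h1, h2]
    split_ifs <;> ring

theorem red_erase {V : Type} [DecidableEq V] (G : SimpleGraph V) (s : Finset V) (x : V)
    [DecidablePred (G.Adj x)] (hx : x ∈ s) :
    red G s = red G (s.erase x) - red G (s.filter (G.Adj x)) := by
  have := red_insert G (s.erase x) x (notMem_erase _ _)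
  rw [insert_erase hx] at this
  rw [this, filter_erase, erase_eq_of_notMem (s := s.filter _) (by simp)]

theorem red_poset {W : Type} (B : SimpleGraph (Finset W)) (hB : ∀ a b, B.Adj a b ↔ a ⊂ b ∨ b ⊂ a)
    (P : Finset (Finset W)) : red B P = 1 - ∑ x ∈ P, red B (P.filter (· ⊂ x)) := by
  refine Finset.induction_on_max_value card P (by simp [red_empty]) (fun a P ha hm ih => ?_)
  · have n : ∀ y ∈ P, ¬ a ⊂ y := fun y hy h => (card_lt_card h).not_ge (hm y hy)
    rw [red_insert B P a ha, ih, sum_insert ha, filter_insert, if_neg (lt_irrefl a),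
      filter_congr (q := (· ⊂ a)) (fun y hy => by simp [hB, n y hy]),
      sum_congr rfl (f := fun y => red B ((insert a P).filter (· ⊂ y)))
        (fun y hy => by rw [filter_insert, if_neg (n y hy)])]
    ring

theorem icc {W : Type} {a b : Finset W} (h : a ⊂ b) : ∑ c ∈ Icc a b, (-1 : ℤ) ^ c.card = 0 := by
  rw [Icc_eq_image_powerset h.1, sum_image]
  · rw [sum_congr rfl (g := fun c => (-1) ^ a.card * (-1) ^ c.card) (fun c hc => by
      rw [card_union_of_disjoint (disjoint_sdiff.mono_right (mem_powerset.1 hc)), pow_add]),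
      ← mul_sum, sum_powerset_neg_one_pow_card_of_nonempty (sdiff_nonempty.2 h.2), mul_zero]
  · intro c hc d hd e
    have := congrArg (· \ a) e
    simpa only [union_sdiff_cancel_left (disjoint_sdiff.mono_right (mem_powerset.1 hc)),
      union_sdiff_cancel_left (disjoint_sdiff.mono_right (mem_powerset.1 hd))] using this

theorem ioo {W : Type} {a b : Finset W} (h : a ⊂ b) :
    ∑ c ∈ Ioo a b, (-1 : ℤ) ^ c.card = -(-1) ^ a.card - (-1) ^ b.card := by
  have := icc h
  rw [Icc_eq_cons_Ioc h.1, sum_cons, Ioc_eq_cons_Ioo h, sum_cons] at this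
  linarith

theorem red_sphere {W : Type} (B : SimpleGraph (Finset W)) (hB : ∀ a b, B.Adj a b ↔ a ⊂ b ∨ b ⊂ a)
    (K : Finset (Finset W)) (K0 : ∅ ∉ K) (K1 : ∀ a ∈ K, ∀ b, ∅ ⊂ b → b ⊂ a → b ∈ K)
    (σ : Finset W) (hσ : σ ∈ K) :
    red B (K.filter (B.Adj σ)) = -∑ τ ∈ K.filter (σ ⊆ ·), (-1) ^ τ.card := by
  have ne : ∀ a ∈ K, ∅ ⊂ a := fun a ha => empty_ssubset.2 (nonempty_iff_ne_empty.2
    (fun e => K0 (e ▸ ha)))
  have dj : ∀ Q : Finset (Finset W), (∀ y ∈ Q, σ ⊂ y) → ∑ y ∈ Ioo ∅ σ ∪ Q,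
      (if y ⊂ σ then -(-1 : ℤ) ^ y.card else (-1) ^ y.card) =
      1 + (-1) ^ σ.card + ∑ y ∈ Q, (-1) ^ y.card := by
    intro Q hQ
    rw [sum_union (disjoint_left.2 fun y h1 h2 => (mem_Ioo.1 h1).2.asymm (hQ y h2)),
      sum_congr rfl (fun y hy => if_pos (mem_Ioo.1 hy).2),
      sum_congr rfl (fun y hy => if_neg (hQ y hy).asymm), sum_neg_distrib, ioo (ne σ hσ)]
    simp [add_comm]
  have key : ∀ n, ∀ x ∈ K.filter (B.Adj σ), x.card = n →
      red B ((K.filter (B.Adj σ)).filter (· ⊂ x)) =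
      if x ⊂ σ then -(-1) ^ x.card else (-1) ^ x.card := by
    intro n
    induction n using Nat.strong_induction_on with
    | _ n ih =>
      intro x hx hn
      rw [red_poset B hB, sum_congr rfl (g := fun y => if y ⊂ σ then -(-1 : ℤ) ^ y.card
        else (-1) ^ y.card) (fun y hy => ?_)]
      · obtain ⟨x1, x2⟩ := mem_filter.1 hx
        rcases (hB _ _).1 x2 with h | h
        · have : (K.filter (B.Adj σ)).filter (· ⊂ x) = Ioo ∅ σ ∪ Ioo σ x := by
            ext y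
            simp only [mem_filter, hB, mem_union, mem_Ioo]
            constructor
            · rintro ⟨⟨h1, h2 | h2⟩, h3⟩
              exacts [Or.inr ⟨h2, h3⟩, Or.inl ⟨ne y h1, h2⟩]
            · rintro (⟨h1, h2⟩ | ⟨h1, h2⟩)
              exacts [⟨⟨K1 σ hσ y h1 h2, Or.inr h2⟩, h2.trans h⟩,
                ⟨⟨K1 x x1 y ((ne σ hσ).trans h1) h2, Or.inl h1⟩, h2⟩]
          rw [this, dj _ (fun y hy => (mem_Ioo.1 hy).1), ioo h, if_neg h.asymm]
          ring
        · have : (K.filter (B.Adj σ)).filter (· ⊂ x) = Ioo ∅ x := by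
            ext y
            simp only [mem_filter, hB, mem_Ioo]
            exact ⟨fun h => ⟨ne y h.1.1, h.2⟩,
              fun h1 => ⟨⟨K1 x x1 y h1.1 h1.2, Or.inr (h1.2.trans h)⟩, h1.2⟩⟩
          rw [this, sum_congr rfl (fun y hy => if_pos ((mem_Ioo.1 hy).2.trans h)),
            sum_neg_distrib, ioo (ne x x1), if_pos h]
          simp
      · obtain ⟨y1, y2⟩ := mem_filter.1 hy
        rw [← ih _ (hn ▸ card_lt_card y2) y y1 rfl]
        congr 1
        ext z
        simp only [mem_filter]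
        exact ⟨fun h => ⟨h.1.1, h.2⟩, fun h => ⟨⟨h.1, h.2.trans y2⟩, h.2⟩⟩
  have e1 : K.filter (B.Adj σ) = Ioo ∅ σ ∪ K.filter (σ ⊂ ·) := by
    ext y
    simp only [mem_filter, hB, mem_union, mem_Ioo]
    constructor
    · rintro ⟨h1, h2 | h2⟩
      exacts [Or.inr ⟨h1, h2⟩, Or.inl ⟨ne y h1, h2⟩]
    · rintro (⟨h1, h2⟩ | ⟨h1, h2⟩)
      exacts [⟨K1 σ hσ y h1 h2, Or.inr h2⟩, ⟨h1, Or.inl h2⟩]
  have e2 : K.filter (σ ⊆ ·) = insert σ (K.filter (σ ⊂ ·)) := by
    ext y
    simp only [mem_filter, mem_insert]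
    constructor
    · rintro ⟨h1, h2⟩
      exact h2.eq_or_ssubset.imp Eq.symm (fun h => ⟨h1, h⟩)
    · rintro (rfl | h)
      exacts [⟨hσ, subset_rfl⟩, ⟨h.1, h.2.1⟩]
  rw [red_poset B hB, sum_congr rfl (fun x hx => key _ x hx rfl), e1,
    dj _ (fun y hy => (mem_filter.1 hy).2), e2, sum_insert (by simp)]
  ring

theorem inv {W : Type} (K : Finset (Finset W)) (K1 : ∀ a ∈ K, ∀ b ⊆ a, b ∈ K) (a : Finset W)
    (ha : a ∈ K) : ∑ c ∈ K.filter (a ⊆ ·), (-1 : ℤ) ^ c.card *
      ∑ τ ∈ K.filter (c ⊆ ·), (-1 : ℤ) ^ τ.card = 1 := by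
  simp only [mul_sum]
  rw [sum_comm' (t' := K.filter (a ⊆ ·)) (s' := fun τ => Icc a τ), sum_eq_single a]
  · simp [← pow_add]
  · intro τ hτ ne
    rw [← sum_mul, icc ((mem_filter.1 hτ).2.ssubset_of_ne ne.symm), zero_mul]
  · exact fun h => (h (mem_filter.2 ⟨ha, subset_rfl⟩)).elim
  · intro c τ
    simp only [mem_filter, mem_Icc]
    exact ⟨fun h => ⟨⟨h.1.2, h.2.2⟩, h.2.1, h.1.2.trans h.2.2⟩,
      fun h => ⟨⟨K1 τ h.2.1 c h.1.2, h.1.1⟩, h.2.1, h.1.2⟩⟩

theorem red_link {V : Type} (G : SimpleGraph V) (s c : Finset V) (hs : c ⊆ s) (hc : G.IsClique c) :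
    ∑ τ ∈ (s.powerset.filter (fun τ : Finset V => G.IsClique τ)).filter (c ⊆ ·),
      (-1 : ℤ) ^ τ.card = (-1) ^ c.card * red G (s.filter (fun y => ∀ x ∈ c, G.Adj x y)) := by
  rw [red, ← sum_filter, mul_sum]
  symm
  have dj : ∀ t ⊆ s.filter (fun y => ∀ x ∈ c, G.Adj x y), Disjoint c t := fun t ht =>
    disjoint_left.2 fun y h1 h2 => G.irrefl ((mem_filter.1 (ht h2)).2 y h1)
  refine sum_nbij' (fun t => c ∪ t) (fun τ => τ \ c) (fun t ht => ?_) (fun τ hτ => ?_)
    (fun t ht => ?_) (fun τ hτ => ?_) (fun t ht => ?_)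
  · simp only [mem_filter, mem_powerset] at ht ⊢
    refine ⟨⟨union_subset hs (ht.1.trans (filter_subset _ _)), ?_⟩, subset_union_left⟩
    intro x hx y hy hxy
    rcases mem_union.1 hx with hx | hx <;> rcases mem_union.1 hy with hy | hy
    exacts [hc hx hy hxy, (mem_filter.1 (ht.1 hy)).2 x hx, ((mem_filter.1 (ht.1 hx)).2 y hy).symm,
      ht.2 hx hy hxy]
  · simp only [mem_filter, mem_powerset] at hτ ⊢
    refine ⟨fun y hy => ?_, hτ.1.2.subset (by simp)⟩
    obtain ⟨y1, y2⟩ := mem_sdiff.1 hy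
    exact mem_filter.2 ⟨hτ.1.1 y1, fun x hx => hτ.1.2 (hτ.2 hx) y1 (fun e => y2 (e ▸ hx))⟩
  · exact union_sdiff_cancel_left (dj t (mem_powerset.1 (mem_filter.1 ht).1))
  · exact union_sdiff_of_subset (mem_filter.1 hτ).2
  · rw [card_union_of_disjoint (dj t (mem_powerset.1 (mem_filter.1 ht).1)), pow_add]

end Pool.Agent.H.MP_dbf4ef_co
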